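import Mathlib

/-!
# Retracts of free Burnside groups

For every exponent `n` with at least two different prime divisors, and every rank `m ≥ 1`, the free
Burnside group `B(m, n)` has a nontrivial retract which is not isomorphic to a free Burnside group
of exponent `n`. For `m ≥ 2` it has a retract which is not isomorphic to any free Burnside group of
any exponent. So the question on the retracts of the groups `B(m, n)` for large odd `n` has a
negative answer for all `n` which are not powers of a prime; only prime powers remain.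
-/

set_option autoImplicit false

namespace Pool.Agent.Results.MP_836feb_al.NonFreeRetracts

/-- The free Burnside group of exponent `n` on the set `α` of free generators (of any rank). -/
abbrev Burnside (α : Type) (n : ℕ) : Type :=
  FreeGroup α ⧸ Subgroup.normalClosure (Set.range (fun g : FreeGroup α => g ^ n))

/-- The subgroup `H` is a retract of `G`. -/
def IsRetract {G : Type} [Group G] (H : Subgroup G) : Prop :=
  ∃ ρ : G →* H, ∀ h : H, ρ h = h

section Basics

variable {α : Type} {n : ℕ}

/-- The free generators. -/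
def gen (n : ℕ) (i : α) : Burnside α n := QuotientGroup.mk (FreeGroup.of i)

theorem pow_exponent (y : Burnside α n) : y ^ n = 1 := by
  induction y using QuotientGroup.induction_on with
  | H g =>
    rw [← QuotientGroup.mk_pow, QuotientGroup.eq_one_iff]
    exact Subgroup.subset_normalClosure ⟨g, rfl⟩

/-- The universal property. -/
def liftB {Q : Type} [Group Q] (hQ : ∀ q : Q, q ^ n = 1) (f : α → Q) : Burnside α n →* Q :=
  QuotientGroup.lift _ (FreeGroup.lift f) (by
    intro g hg
    have h : Subgroup.normalClosure (Set.range (fun g : FreeGroup α => g ^ n)) ≤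
        (FreeGroup.lift f).ker := by
      apply Subgroup.normalClosure_le_normal
      rintro _ ⟨x, rfl⟩
      show FreeGroup.lift f (x ^ n) = 1
      rw [map_pow, hQ]
    exact h hg)

@[simp] theorem liftB_gen {Q : Type} [Group Q] (hQ : ∀ q : Q, q ^ n = 1) (f : α → Q) (i : α) :
    liftB hQ f (gen n i) = f i := by
  show FreeGroup.lift f (FreeGroup.of i) = f i
  simp

theorem hom_ext' {Q : Type} [Group Q] (f g : Burnside α n →* Q)
    (h : ∀ i, f (gen n i) = g (gen n i)) : f = g := by
  apply QuotientGroup.monoidHom_ext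
  apply FreeGroup.ext_hom
  intro i
  exact h i

/-- The cyclic group of order `n`. -/
abbrev Cy (n : ℕ) : Type := Multiplicative (ZMod n)

theorem cy_pow (c : Cy n) : c ^ n = 1 := by
  apply Multiplicative.toAdd.injective
  rw [toAdd_pow, toAdd_one, nsmul_eq_mul, CharP.cast_eq_zero, zero_mul]

theorem cy_one_order : orderOf (Multiplicative.ofAdd (1 : ZMod n)) = n := by
  rw [orderOf_ofAdd_eq_addOrderOf, ZMod.addOrderOf_one]

theorem orderOf_gen (i : α) : orderOf (gen n i) = n := by
  apply Nat.dvd_antisymm
  · exact orderOf_dvd_of_pow_eq_one (pow_exponent _)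
  · have h := orderOf_map_dvd (liftB (α := α) (n := n) cy_pow
      (fun _ => Multiplicative.ofAdd (1 : ZMod n))) (gen n i)
    rwa [liftB_gen, cy_one_order] at h

theorem subsingleton_of_isEmpty [IsEmpty α] : Subsingleton (Burnside α n) := by
  refine ⟨fun x y => ?_⟩
  induction x using QuotientGroup.induction_on with
  | H g =>
    induction y using QuotientGroup.induction_on with
    | H h => rw [Subsingleton.elim g h]

end Basics

/-- Idempotents modulo a product of coprime numbers. -/
theorem exists_idem {a b : ℕ} (hab : a.Coprime b) :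
    ∃ e : ℕ, e ≡ 1 [MOD a] ∧ b ∣ e := by
  obtain ⟨e, h1, h2⟩ := Nat.chineseRemainder hab 1 0
  exact ⟨e, h1, (Nat.modEq_zero_iff_dvd).1 h2⟩

/-- Part one: cyclic retracts. -/
theorem cyclic_retract {a b : ℕ} (ha : 1 < a) (hb : 1 < b) (hab : a.Coprime b) (α : Type)
    [Nonempty α] : ∃ H : Subgroup (Burnside α (a * b)), IsRetract H ∧ IsCyclic H ∧
      Nat.card H = a ∧ ∀ κ : Type, IsEmpty (H ≃* Burnside κ (a * b)) := by
  classical
  obtain ⟨i0⟩ := ‹Nonempty α›
  set n := a * b with hn
  have hn0 : 0 < n := Nat.mul_pos (by omega) (by omega)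
  obtain ⟨e, he1, he2⟩ := exists_idem hab
  obtain ⟨e', rfl⟩ := he2
  set x : Burnside α n := gen n i0 with hx
  have hcard : Nat.card (Subgroup.zpowers (x ^ b)) = a := by
    rw [Nat.card_zpowers, orderOf_pow' _ (by omega : b ≠ 0), orderOf_gen, hn,
      Nat.gcd_mul_left_left, Nat.mul_div_cancel _ (by omega)]
  refine ⟨Subgroup.zpowers (x ^ b), ?_, inferInstance, hcard, ?_⟩
  · let y : Subgroup.zpowers (x ^ b) := ⟨(x ^ b) ^ e', Subgroup.npow_mem_zpowers _ _⟩
    have hQ : ∀ q : Subgroup.zpowers (x ^ b), q ^ n = 1 := by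
      intro q
      apply Subtype.ext
      exact pow_exponent _
    refine ⟨liftB hQ (fun _ => y), ?_⟩
    rintro ⟨h, k, rfl⟩
    have h1 : liftB (α := α) (n := n) hQ (fun _ => y) (x ^ b) =
        ⟨x ^ b, Subgroup.mem_zpowers _⟩ := by
      have h0 : liftB (α := α) (n := n) hQ (fun _ => y) x = y := liftB_gen hQ _ i0
      rw [map_pow, h0]
      apply Subtype.ext
      show ((x ^ b) ^ e') ^ b = x ^ b
      rw [← pow_mul, ← pow_mul, pow_eq_pow_iff_modEq, orderOf_gen]
      have h2 : b * e' * b ≡ 1 * b [MOD a * b] := Nat.ModEq.mul_right' b he1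
      simpa [hn, mul_assoc] using h2
    show liftB hQ (fun _ => y) ((x ^ b) ^ k) = _
    rw [map_zpow, h1]
    rfl
  · intro κ
    refine ⟨fun E => ?_⟩
    rcases isEmpty_or_nonempty κ with hκ | ⟨⟨k⟩⟩
    · have := subsingleton_of_isEmpty (α := κ) (n := n)
      have : Subsingleton (Subgroup.zpowers (x ^ b)) := E.toEquiv.subsingleton
      have := Nat.card_of_subsingleton (1 : Subgroup.zpowers (x ^ b))
      omega
    · have h1 : (E.symm (gen n k)) ^ a = 1 := by
        have := pow_card_eq_one' (x := E.symm (gen n k))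
        rwa [hcard] at this
      have h2 : gen n k ^ a = 1 := by
        have := congrArg E h1
        rwa [map_pow, map_one, MulEquiv.apply_symm_apply] at this
      have h3 := orderOf_dvd_of_pow_eq_one h2
      rw [orderOf_gen] at h3
      have h4 := Nat.le_of_dvd (by omega) h3
      rw [hn] at h4
      nlinarith

/-- Homomorphisms from a free Burnside group to the cyclic group of order `n`. -/
def homEquiv (κ : Type) (n d : ℕ) (h : n ∣ d) : (Burnside κ d →* Cy n) ≃ (κ → Cy n) where
  toFun f k := f (gen d k)
  invFun c := liftB (fun q => by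
    obtain ⟨m, rfl⟩ := h
    rw [pow_mul, cy_pow, one_pow]) c
  left_inv f := by
    apply hom_ext'
    intro i
    simp
  right_inv c := by
    funext k
    simp

/-- Part two: retracts which are not free in any Burnside variety. -/
theorem second_retract {a b : ℕ} (ha : 1 < a) (hb : 1 < b) (hab : a.Coprime b) (α : Type)
    [Nontrivial α] : ∃ H : Subgroup (Burnside α (a * b)), IsRetract H ∧
      ∀ (κ : Type) (d : ℕ), IsEmpty (H ≃* Burnside κ d) := by
  classical
  obtain ⟨i0, i1, h01⟩ := exists_pair_ne α
  set n := a * b with hn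
  have hn0 : 0 < n := Nat.mul_pos (by omega) (by omega)
  have : NeZero n := ⟨hn0.ne'⟩
  obtain ⟨e, he1, he2⟩ := exists_idem hab
  have hee : e * e ≡ e [MOD n] := by
    rw [hn]
    apply (Nat.modEq_and_modEq_iff_modEq_mul hab).1
    constructor
    · simpa using he1.mul_right e
    · exact (Nat.modEq_zero_iff_dvd.2 (he2.mul_right e)).trans (Nat.modEq_zero_iff_dvd.2 he2).symm
  -- the idempotent endomorphism
  let f : α → Burnside α n := fun i =>
    if i = i0 then gen n i0 ^ e else if i = i1 then gen n i1 else 1
  let φ : Burnside α n →* Burnside α n := liftB pow_exponent f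
  have hφ0 : φ (gen n i0) = gen n i0 ^ e := by simp [φ, f]
  have hφ1 : φ (gen n i1) = gen n i1 := by simp [φ, f, h01.symm]
  have hφ2 : ∀ i, i ≠ i0 → i ≠ i1 → φ (gen n i) = 1 := by
    intro i h1 h2
    simp [φ, f, h1, h2]
  have hφφ : φ.comp φ = φ := by
    apply hom_ext'
    intro i
    show φ (φ (gen n i)) = φ (gen n i)
    by_cases h1 : i = i0
    · subst h1
      rw [hφ0, map_pow, hφ0, ← pow_mul, pow_eq_pow_iff_modEq, orderOf_gen]
      exact hee
    · by_cases h2 : i = i1
      · subst h2
        rw [hφ1, hφ1]
      · rw [hφ2 i h1 h2, map_one]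
  refine ⟨φ.range, ⟨φ.rangeRestrict, ?_⟩, ?_⟩
  · rintro ⟨_, x, rfl⟩
    apply Subtype.ext
    show φ (φ x) = φ x
    exact DFunLike.congr_fun hφφ x
  · intro κ d
    refine ⟨fun E => ?_⟩
    -- the exponent of the range is `n`
    have hd : n ∣ d := by
      have h1 : (E.symm (E ⟨gen n i1, ⟨gen n i1, hφ1⟩⟩)) ^ d = 1 := by
        rw [← map_pow, pow_exponent, map_one]
      rw [MulEquiv.symm_apply_apply] at h1
      have h2 : gen n i1 ^ d = 1 := congrArg Subtype.val h1
      have h3 := orderOf_dvd_of_pow_eq_one h2
      rwa [orderOf_gen] at h3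
    -- homomorphisms from the range to the cyclic group
    let R : Set (Cy n × Cy n) := {c | c.1 ^ a = 1}
    let u0 : φ.range := φ.rangeRestrict (gen n i0)
    let u1 : φ.range := φ.rangeRestrict (gen n i1)
    have hu0 : u0 ^ a = 1 := by
      apply Subtype.ext
      show φ (gen n i0) ^ a = 1
      obtain ⟨e', rfl⟩ := he2
      rw [hφ0, ← pow_mul, show b * e' * a = n * e' by rw [hn]; ring, pow_mul, pow_exponent,
        one_pow]
    have hce : ∀ c : Cy n, c ^ a = 1 → c ^ e = c := by
      intro c hc
      nth_rewrite 2 [← pow_one c]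
      rw [pow_eq_pow_iff_modEq]
      exact he1.of_dvd (orderOf_dvd_of_pow_eq_one hc)
    let G1 : Cy n → Cy n → (Burnside α n →* Cy n) := fun c0 c1 =>
      liftB cy_pow (fun i => if i = i0 then c0 else if i = i1 then c1 else 1)
    have hG0 : ∀ c0 c1, G1 c0 c1 (gen n i0) = c0 := by
      intro c0 c1
      simp [G1]
    have hG1 : ∀ c0 c1, G1 c0 c1 (gen n i1) = c1 := by
      intro c0 c1
      simp [G1, h01.symm]
    have key : (φ.range →* Cy n) ≃ R := by
      refine ⟨fun g => ⟨(g u0, g u1), ?_⟩,
        fun c => (G1 c.1.1 c.1.2).comp φ.range.subtype, ?_, ?_⟩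
      · show (g u0) ^ a = 1
        rw [← map_pow, hu0, map_one]
      · intro g
        apply MonoidHom.ext
        have h1 : (G1 (g u0) (g u1)).comp φ = g.comp φ.rangeRestrict := by
          apply hom_ext'
          intro i
          by_cases h1 : i = i0
          · subst h1
            calc (G1 (g u0) (g u1)) (φ (gen n i)) = (G1 (g u0) (g u1)) (gen n i ^ e) :=
                  congrArg _ hφ0
              _ = (g u0) ^ e := by rw [map_pow, hG0]
              _ = g u0 := hce _ (by rw [← map_pow, hu0, map_one])
          · by_cases h2 : i = i1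
            · subst h2
              calc (G1 (g u0) (g u1)) (φ (gen n i)) = (G1 (g u0) (g u1)) (gen n i) :=
                    congrArg _ hφ1
                _ = g u1 := hG1 _ _
            · have h3 : φ.rangeRestrict (gen n i) = 1 := Subtype.ext (hφ2 i h1 h2)
              calc (G1 (g u0) (g u1)) (φ (gen n i)) = (G1 (g u0) (g u1)) 1 :=
                    congrArg _ (hφ2 i h1 h2)
                _ = 1 := map_one _
                _ = g (φ.rangeRestrict (gen n i)) := by rw [h3, map_one]
        rintro ⟨_, x, rfl⟩
        exact DFunLike.congr_fun h1 x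
      · rintro ⟨⟨c0, c1⟩, hc⟩
        have hc' : c0 ^ a = 1 := hc
        apply Subtype.ext
        apply Prod.ext
        · calc (G1 c0 c1) (φ (gen n i0)) = (G1 c0 c1) (gen n i0 ^ e) := congrArg _ hφ0
            _ = c0 ^ e := by rw [map_pow, hG0]
            _ = c0 := hce _ hc'
        · calc (G1 c0 c1) (φ (gen n i1)) = (G1 c0 c1) (gen n i1) := congrArg _ hφ1
            _ = c1 := hG1 _ _
    have hR : Nat.card R = a * n := by
      have h1 : R = ({c : Cy n | c ^ a = 1} : Set (Cy n)) ×ˢ (Set.univ : Set (Cy n)) := by
        ext c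
        simp [R]
      have h2 : Nat.card {c : Cy n | c ^ a = 1} = a := by
        have h4 := IsCyclic.card_powMonoidHom_ker (G := Cy n) a
        have h5 : Nat.card (Cy n) = n := Nat.card_zmod n
        rw [h5, hn, Nat.gcd_mul_right_left] at h4
        exact h4
      have h6 : Nat.card (Cy n) = n := Nat.card_zmod n
      rw [h1, Nat.card_coe_set_eq, Set.ncard_prod, ← Nat.card_coe_set_eq, h2, Set.ncard_univ, h6]
    have h1 : Nat.card (φ.range →* Cy n) = a * n := by rw [Nat.card_congr key, hR]
    have h2 : Nat.card (κ → Cy n) = a * n := by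
      rw [← Nat.card_congr (homEquiv κ n d hd), ← h1]
      exact Nat.card_congr (Equiv.mk (fun g => g.comp E.toMonoidHom) (fun g => g.comp E.symm.toMonoidHom)
        (fun g => by ext; simp) (fun g => by ext; simp))
    have h6 : Nat.card (Cy n) = n := Nat.card_zmod n
    have han : n < a * n := by nlinarith
    have han2 : a * n < n * n := by
      apply Nat.mul_lt_mul_of_pos_right _ hn0
      rw [hn]
      nlinarith
    rcases finite_or_infinite κ with hκ | hκ
    · rw [Nat.card_fun, h6] at h2
      rcases Nat.lt_or_ge (Nat.card κ) 2 with h3 | h3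
      · have h4 : n ^ Nat.card κ ≤ n ^ 1 := Nat.pow_le_pow_right hn0 (by omega)
        rw [pow_one] at h4
        omega
      · have h4 : n ^ 2 ≤ n ^ Nat.card κ := Nat.pow_le_pow_right hn0 h3
        rw [pow_two] at h4
        omega
    · have : Nontrivial (Cy n) := by
        rw [← Finite.one_lt_card_iff_nontrivial, h6, hn]
        nlinarith
      have h3 : Infinite (κ → Cy n) := inferInstance
      rw [Nat.card_eq_zero_of_infinite] at h2
      omega

/-- 1. For coprime `a, b > 1` and any set `α ≠ ∅` the free Burnside group `B(α, ab)` has a retract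
which is cyclic of order `a`, and it is not isomorphic to any free Burnside group of exponent `ab`.

2. For coprime `a, b > 1` and any set `α` with at least two elements, `B(α, ab)` has a retract which
is not isomorphic to any free Burnside group `B(κ, d)` of any exponent `d`.

3. So there is no `N` such that for all odd `n ≥ N` all retracts of all groups `B(α, n)` are free
Burnside groups of exponent `n`. -/
theorem result :
    (∀ a b : ℕ, 1 < a → 1 < b → a.Coprime b → ∀ (α : Type) [Nonempty α],
      ∃ H : Subgroup (Burnside α (a * b)), IsRetract H ∧ IsCyclic H ∧ Nat.card H = a ∧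
        ∀ κ : Type, IsEmpty (H ≃* Burnside κ (a * b))) ∧
    (∀ a b : ℕ, 1 < a → 1 < b → a.Coprime b → ∀ (α : Type) [Nontrivial α],
      ∃ H : Subgroup (Burnside α (a * b)), IsRetract H ∧
        ∀ (κ : Type) (d : ℕ), IsEmpty (H ≃* Burnside κ d)) ∧
    ¬ ∃ N : ℕ, ∀ n : ℕ, N ≤ n → Odd n → ∀ (α : Type) [Nonempty α] (H : Subgroup (Burnside α n)),
      IsRetract H → ∃ κ : Type, Nonempty (H ≃* Burnside κ n) := by
  refine ⟨fun a b ha hb hab α _ => cyclic_retract ha hb hab α,
    fun a b ha hb hab α _ => second_retract ha hb hab α, ?_⟩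
  rintro ⟨N, hN⟩
  obtain ⟨H, h1, -, -, h2⟩ := cyclic_retract (a := 3) (b := 6 * N + 5) (by norm_num) (by omega)
    ((Nat.Prime.coprime_iff_not_dvd Nat.prime_three).2 (by omega)) Unit
  obtain ⟨κ, ⟨E⟩⟩ := hN (3 * (6 * N + 5)) (by omega) ⟨9 * N + 7, by ring⟩ Unit H h1
  exact (h2 κ).false E

end Pool.Agent.Results.MP_836feb_al.NonFreeRetracts
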